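import Pool.Agent.Run7.h759.DI.Nil4

/-!
# Dade's invariant conjecture for nilpotent quotients (helper759)

`p` is a prime, `G` a normal subgroup of the finite group `E`.  `DadeInv p red G`
(`Pool/Agent/N20/DI/Fin.lean`) is Q1 for `p`, `G`, `E`: all blocks of `G` with nontrivial defect
groups, all `d` and all subgroups of `E/G`.  It is shown that for a finite nilpotent group `U` the
conjecture for all `(E, G)` with `E/G ≅ U` is equivalent to the conjecture for all `(E, G)` with
`E/G ≅ C_n × C_n`, where `n` is the product of the primes `ℓ ≠ p` for which the Sylow `ℓ`-subgroups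
of `U` are not cyclic.  So if these are cyclic for all `ℓ ≠ p`, for example if `U` is a `p`-group, then
the conjecture for `U` is equivalent to the ordinary conjecture (`n = 1`, `E = G`).

Outline.  Let `s(E, G, B)` be the sequence (in `d`) of the sums over the characters which are fixed by
all of `E/G`.  The statement `Ok U` that all `s(E, G, B)` with `E/G ≅ U` vanish passes to quotients of
`U` (pull back `E`).  Let `A ≤ U` be normal of prime order `ℓ`, `N` its preimage in `E`, and assume
`Ok (U/A)`.
* The sums for `N` and `E/N ≅ U/A` vanish.  Clifford theory for `G ∩ S ≤ N ∩ S` (`S` the stabiliser of a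
  chain), a decomposition of the chains of `N` and a count of the characters of the stabilisers of
  `p`-subgroups of `N` outside `G` give `ℓ t_1 = n_C s` (with a shift of the defects by one if
  `ℓ = p`), where `n_C` is the number of complements of `A`, and `t_c` is the sum over the extensions
  `χ` to `N ∩ S` of the invariant characters of `G ∩ S` with `χ^u = c(u) χ` for all `u ∈ U`, for
  `c : U → Irr(A)`.  Moreover `∑_c t_c = ℓ s`.
* For the fibre product `Γ = E₁ ×_U E₂` (the normal subgroup is `G₁ × G₂`) `s` is the convolution of
  `s(E₁)` and `s(E₂)`, and `ℓ t_1(Γ)` is `∑_c t_c(E₁) * t_{c⁻¹}(E₂)`.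
* `E₂ = E₁` with the dual block gives `∑_c t_c * t_c = n_C s * s` (shifted by one if `ℓ = p`).  The
  terms of lowest degree show that `s = 0` if `ℓ = p` or `n_C = 0`.
* If `ℓ ≠ p` and `A` has a complement, then the central extension `E₂` of `U` by a group of order
  prime to `p` which is defined by all crossed homomorphisms `c : U/A → Irr(A)` gives
  `ℓ² s = n_C n_X s`, where `n_X` is their number.
So `Ok (U/A)` implies `Ok U` if `ℓ = p` or `n_C n_X ≠ ℓ²`.  If `U` is nilpotent, `A` central, then
`n_C ∈ {0, n_X}` and `n_X = |Hom(U/A, C_ℓ)|`.  Induction on the order of the kernel of a surjection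
`U → C_n × C_n`.
-/

set_option autoImplicit false

open scoped Classical BigOperators

namespace Pool.Agent.Results.MP_baa4d7_al.NilpotentQuotients

open Pool.Agent.N20.DI (DadeInv)

/-- Dade's invariant conjecture for the prime `p` and all finite groups `E` with a normal subgroup `G`
such that `E/G` is isomorphic to `U`. -/
def DadeFor (p : ℕ) {F : Type} [Field F] (red : integralClosure ℤ ℂ →+* F) (U : Type) [Group U] :
    Prop :=
  ∀ (E : Type) [Group E] [Finite E] (G : Subgroup E) [G.Normal], Nonempty (E ⧸ G ≃* U) →
    DadeInv p red G

/-- The product of the primes `ℓ ≠ p` dividing `|U|` for which the Sylow `ℓ`-subgroups of `U` are not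
cyclic. -/
noncomputable def num (p : ℕ) (U : Type) [Group U] : ℕ :=
  ∏ ℓ ∈ (Nat.card U).primeFactors with (ℓ ≠ p ∧ ∀ P : Sylow ℓ U, ¬ IsCyclic P), ℓ

/-- **Dade's invariant conjecture for nilpotent quotients.** Let `U` be a finite nilpotent group and
`n` the product of the primes `ℓ ≠ p` for which the Sylow `ℓ`-subgroups of `U` are not cyclic. The
conjecture holds for all `E`, `G` with `E/G ≅ U` if and only if it holds for all `E`, `G` with
`E/G ≅ C_n × C_n`. -/
theorem result (p : ℕ) [Fact p.Prime] (F : Type) [Field F] [IsAlgClosed F] [CharP F p]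
    (red : integralClosure ℤ ℂ →+* F) (U : Type) [Group U] [Finite U] [Group.IsNilpotent U] :
    DadeFor p red U ↔ DadeFor p red (Multiplicative (ZMod (num p U) × ZMod (num p U))) :=
  Run7.h759.DI.dic_nil red U

end Pool.Agent.Results.MP_baa4d7_al.NilpotentQuotients
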