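import Pool.Agent.Run7.h759.DI.Opp
import Pool.Agent.Run7.h759.DI.DF

/-!
# Dade's invariant conjecture: normal `p`-subgroups of `E/G` can be factored out (helper759)

`p` is a prime, `G` a normal subgroup of the finite group `E`.  `DadeInv p red G`
(`Pool/Agent/N20/DI/Fin.lean`) is Q1 for `p`, `G`, `E`: all blocks of `G` with nontrivial defect
groups, all `d` and all subgroups of `E/G`.  `DadeFor p red U` is the conjecture for all `(E, G)` with
`E/G ≅ U`.  It is shown that for a normal `p`-subgroup `P` of the finite group `U` the conjectures
`DadeFor` for `U` and for `U/P` are equivalent.  With `P = O_p(U)` this reduces the whole conjecture to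
`O_p(E/G) = 1`, and it reduces the case of a `p`-group `E/G` to the ordinary conjecture `E = G`; if
`E/G` is restricted to a class of finite groups which is closed under quotients, then again
`O_p(E/G) = 1` can be assumed.

Outline.
* The sums over the characters fixed by all of `E/G`, for all `(E, G)` with `E/G ≅ U`, decide the
  conjecture for all `(E, G)` with `E/G ≅ U` (`dade_iff_ok`): tensor induction passes from `U` to its
  subgroups. So it is enough to consider these sums.
* By induction it can be assumed that `A = P` is a minimal normal subgroup of `U` and abelian;
  `|A| = p^k`.  Let `N` be the preimage of `A` in `E`, and `S` the stabiliser in `E` of a `p`-chain of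
  `G`. The sums for `N` and `E/N ≅ U/A` vanish.  A decomposition of the chains of `N`, and a count of
  the characters of the stabilisers of `p`-subgroups of `N` outside `G`, show `g_D = n_C s_D` for
  `D > k`, where `s_D` is the sum over the invariant characters of `G ∩ S` of defect `D`, weighted with
  `|G ∩ S|`, `g_D` is the sum over the invariant characters of `N ∩ S` of defect `D` over invariant
  characters of `G ∩ S`, weighted with `|N ∩ S|`, and `n_C` is the number of complements of `A` in `U`.
* As `A` is minimal normal, an invariant `θ` of defect `d` which does not extend to `N ∩ S` is fully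
  ramified: there is one `χ` over `θ`, of defect `d + k/2`.  If `θ` has an invariant extension, then it
  has `a` of them, of defect `d + k`, where `a` is the number of invariant linear characters of `A`;
  otherwise it has none.
* For the fibre product `E ×_U E` with the normal subgroup `G × G` the characters are the products of
  `θ₁` and the dual of `θ₂`.  To have an invariant extension defines an equivalence relation between
  the `θ₁` and `θ₂`.
* Let `D` be the largest degree such that one of the sums `s_D^L` over a class `L` of this
  relation is not zero.  For `E ×_U E` and the degree `2 D + k` the relation says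
  `|A| a ∑_L (s_D^L)² = 0`, so `s = 0`.
-/

set_option autoImplicit false

namespace Pool.Agent.Results.MP_baa4d7_al.NormalPSubgroups

open Pool.Agent.N20.DI (DadeInv)

/-- Dade's invariant conjecture for the prime `p` and all finite groups `E` with a normal subgroup `G`
such that `E/G` is isomorphic to `U`. -/
def DadeFor (p : ℕ) {F : Type} [Field F] (red : integralClosure ℤ ℂ →+* F) (U : Type) [Group U] :
    Prop :=
  ∀ (E : Type) [Group E] [Finite E] (G : Subgroup E) [G.Normal], Nonempty (E ⧸ G ≃* U) →
    DadeInv p red G

/-- **Dade's invariant conjecture: normal `p`-subgroups of `E/G`.** Let `P` be a normal `p`-subgroup of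
the finite group `U`. Dade's invariant conjecture holds for all `E`, `G` with `E/G ≅ U` if and only if
it holds for all `E`, `G` with `E/G ≅ U/P`. -/
theorem result (p : ℕ) [Fact p.Prime] (F : Type) [Field F] [IsAlgClosed F] [CharP F p]
    (red : integralClosure ℤ ℂ →+* F) (U : Type) [Group U] [Finite U] (P : Subgroup U) [P.Normal]
    (hP : IsPGroup p P) : DadeFor p red U ↔ DadeFor p red (U ⧸ P) := by
  unfold DadeFor
  rw [Run7.h759.DI.dade_iff_ok, Run7.h759.DI.dade_iff_ok]
  exact Run7.h759.DI.ok_op red P hP

end Pool.Agent.Results.MP_baa4d7_al.NormalPSubgroups
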