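import Pool.Agent.Run7.h759.DI.Nil4
import Pool.Agent.Run7.h759.DI.DF

/-!
# Dade's invariant conjecture: normal subgroups of prime order of `E/G` (helper759)

`p` is a prime, `G` a normal subgroup of the finite group `E`.  `DadeInv p red G`
(`Pool/Agent/N20/DI/Fin.lean`) is Q1 for `p`, `G`, `E`: all blocks of `G` with nontrivial defect
groups, all `d` and all subgroups of `E/G`.  `DadeFor p red U` is the conjecture for all `(E, G)` with
`E/G ≅ U`.  If `A` is a normal subgroup of `U` of prime order `ℓ`, and `ℓ = p`, or `ℓ ≠ p` and
`n_C n_X ≠ ℓ²`, where `n_C` is the number of complements of `A` in `U` and `n_X` the number of crossed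
homomorphisms from `U/A` to the group of linear characters of `A`, then `DadeFor` for `U` and for `U/A`
are equivalent.  In particular this holds if `A` has no complement, for example if `A` is contained in
the Frattini subgroup of `U`.

The sums over the characters fixed by all of `E/G`, for all `(E, G)` with `E/G ≅ U`, decide the
conjecture for all `(E, G)` with `E/G ≅ U` (`dade_iff_ok`, tensor induction). The rest of the proof is
described in `NilpotentQuotients.lean`.
-/

set_option autoImplicit false

namespace Pool.Agent.Results.MP_baa4d7_al.PrimeOrderSubgroups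

open Pool.Agent.N20.DI (DadeInv)

/-- Dade's invariant conjecture for the prime `p` and all finite groups `E` with a normal subgroup `G`
such that `E/G` is isomorphic to `U`. -/
def DadeFor (p : ℕ) {F : Type} [Field F] (red : integralClosure ℤ ℂ →+* F) (U : Type) [Group U] :
    Prop :=
  ∀ (E : Type) [Group E] [Finite E] (G : Subgroup E) [G.Normal], Nonempty (E ⧸ G ≃* U) →
    DadeInv p red G

/-- The number of complements of `A` in `U`. -/
noncomputable def numCompl {U : Type} [Group U] (A : Subgroup U) : ℕ :=
  Nat.card {V : Subgroup U // V ⊓ A = ⊥ ∧ V ⊔ A = ⊤}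

/-- The number of the maps `c` from `U` to the group of the homomorphisms `A → ℂˣ` which are trivial on
`A` and satisfy `c(uv)(a) = c(u)(v a v⁻¹) c(v)(a)`, that is, of the crossed homomorphisms from `U/A` to
the group of linear characters of `A`. -/
noncomputable def numCrossed {U : Type} [Group U] (A : Subgroup U) [hA : A.Normal] : ℕ :=
  Nat.card {c : U → A →* ℂˣ // (∀ (u v : U) (a : A),
    c (u * v) a = c u ⟨v * a * v⁻¹, hA.conj_mem a a.2 v⟩ * c v a) ∧ ∀ b ∈ A, c b = 1}

/-- **Normal subgroups of prime order.** Let `A` be a normal subgroup of prime order `ℓ` of the finite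
group `U`. Suppose that `ℓ = p`, or that `n_C n_X ≠ ℓ²` for the numbers `n_C` of complements of `A` and
`n_X` of crossed homomorphisms from `U/A` to the linear characters of `A`. Then Dade's invariant
conjecture holds for all `E`, `G` with `E/G ≅ U` if and only if it holds for all `E`, `G` with
`E/G ≅ U/A`. -/
theorem result (p : ℕ) [Fact p.Prime] (F : Type) [Field F] [IsAlgClosed F] [CharP F p]
    (red : integralClosure ℤ ℂ →+* F) (U : Type) [Group U] [Finite U] (A : Subgroup U) [A.Normal]
    (ℓ : ℕ) (hl : ℓ.Prime) (hA : Nat.card A = ℓ)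
    (h : ℓ = p ∨ numCompl A * numCrossed A ≠ ℓ ^ 2) :
    DadeFor p red U ↔ DadeFor p red (U ⧸ A) := by
  have _l : Fact ℓ.Prime := ⟨hl⟩
  unfold DadeFor
  rw [Run7.h759.DI.dade_iff_ok, Run7.h759.DI.dade_iff_ok]
  constructor
  · exact Run7.h759.DI.ok_quot red (QuotientGroup.mk' A) (QuotientGroup.mk'_surjective A)
  · intro hW
    by_cases hlp : ℓ = p
    · exact Run7.h759.DI.ok_prime red hA (Or.inr hlp) hW
    · exact Run7.h759.DI.ok_compl red hA hlp (h.resolve_left hlp) hW

end Pool.Agent.Results.MP_baa4d7_al.PrimeOrderSubgroups
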