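import Pool.Agent.Run7.h759.DI.PS16
import Pool.Agent.Run7.h759.DI.Nil4

/-!
# Dade's invariant conjecture: parity of real-valued characters (helper759)

`p` is a prime.  `DadeInv p red G` (`Pool/Agent/N20/DI/Fin.lean`) is Q1 for `p` and the normal
subgroup `G` of the finite group `E`: all blocks of `G` with nontrivial defect groups, all `d` and all
subgroups of `E/G`.  It is shown that Dade's invariant conjecture for the prime `p`, for all finite
groups `E` and all normal subgroups, is equivalent to the statement that certain alternating sums are
even: those of the numbers of the real-valued characters which are fixed by all of `E`, for the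
semidirect products `E = G ⋊ A_n` with alternating groups, where `n` runs over any infinite set of
natural numbers.

Outline.

* Tensor induction.  Let `V` be a subgroup of the finite group `Γ`, `q : E → V` a homomorphism onto
  `V` with kernel `G`, `T = Γ/V` and `s` a section.  The group `E'` of the pairs `(g, f)`, `g ∈ Γ`,
  `f : T → E`, `q (f t) = s(t)⁻¹ g s(g⁻¹ t)`, is an extension of `G' = G^T` with `E'/G' ≅ Γ`.  The
  `p`-subgroups of `G'` which are not the product of their projections cancel, and a chain of products
  whose stabiliser covers `Γ` is conjugate to the diagonal of a chain of `G`.  The sum for `E'` in the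
  degree `|T| d` is `|G|^(|T|-1)` times the sum for `E` in the degree `d`; here the sums run over all
  chains, a character of the stabiliser `S` being counted with the weight `|S|`, so that the sum is
  `|G|` times Dade's sum.
* The fibre square `E ×_U E` with the normal subgroup `G × 1` is a split extension by `E`, and has the
  same sums as `E`, `G`.  Every finite group is a subgroup of all large alternating groups.  So, if
  the sums `s_d` of the semidirect products with `A_n` are divisible by `2 |G|`, then those of all
  extensions are.
* Let `U` be perfect, `E/G = U`, `E'` the extension of `G' = G × G` by `U × C_2` (tensor induction from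
  `U` to `U × C_2`), and `N` the preimage of `C_2`, so that `E'/N = U`.  The chains of `N` and Clifford
  theory give, for `p` odd, `s_{2d}(N) = 3 |G| s_d + ∑_{i+j=2d} s_i s_j`, and a similar relation for
  `p = 2`, where the chains of `N` which are not contained in `G'` contribute the sums for the
  normalisers of the complements of `G'` in `N`.  If `2^a |G|` divides `s_d` for all `d ≥ 1` and all
  extensions by `U`, then it follows that `2^(a+1) |G|` divides `s_d`.  So all `s_d` are zero.
* For the start (`a = 1`) the sums run over the characters with value `1` at a class function which is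
  invariant under inversion; so they are congruent to the sums over the real-valued characters.  The
  block `B` is replaced by `B` and its dual.
-/

set_option autoImplicit false

open scoped Classical BigOperators

namespace Pool.Agent.Results.MP_baa4d7_al.RealParity

open Pool.Agent.Y63.AWC (IsIrreducibleCharacter)
open Pool.Agent.Y63.NV (IsBlock numDzBlock)
open Pool.Agent.R674.Tw (NG NEbar IndB)
open Pool.Agent.N20.DI (HasDef kdU kdGe radSum DadeInv)

/-- The number of the real-valued `ψ ∈ Irr(N_G(C))` of defect `d` with `b(ψ)^G = B` and
`N_Ē(C, ψ) = Ē`; the real-valued characters are those with `ψ(x⁻¹) = ψ(x)` for all `x`. -/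
noncomputable def kReal (p : ℕ) {F : Type} [Field F] (red : integralClosure ℤ ℂ →+* F) {E : Type}
    [Group E] (G : Subgroup E) [G.Normal] (B : (G → F) → F) (d : ℕ) (σ : Set (Subgroup E)) : ℕ :=
  Nat.card {χ : NG G σ → ℂ // IsIrreducibleCharacter χ ∧ HasDef p d χ ∧ NEbar G σ χ = ⊤ ∧
    IndB red G σ χ B ∧ ∀ x, χ x⁻¹ = χ x}

/-- For all finite groups `E = G ⋊ K` with `K ≅ A_n`, `O_p(G) = 1`, all blocks `B` of `G` with
nontrivial defect groups (without characters of defect zero) and all `d`: the alternating sum of the
numbers of the real-valued characters of `N_G(C)` of defect `d` over `B` which are fixed by `E`, over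
representatives `C` of the `G`-classes of radical `p`-chains, is even. -/
def EvenSums (p : ℕ) {F : Type} [Field F] (red : integralClosure ℤ ℂ →+* F) (n : ℕ) : Prop :=
  ∀ (E : Type) [Group E] [Finite E] (G K : Subgroup E) [G.Normal], K ⊓ G = ⊥ → K ⊔ G = ⊤ →
    Nonempty (K ≃* alternatingGroup (Fin n)) →
    (∀ P : Subgroup G, P.Normal → IsPGroup p P → P = ⊥) →
    ∀ B : (G → F) → F, IsBlock B → numDzBlock p red B = 0 → ∀ d : ℕ,
      Even (radSum p G (fun σ => (kReal p red G B d σ : ℤ)))

/-- **Dade's invariant conjecture and the parity of real-valued characters.**  Let `N` be an infinite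
set of natural numbers.  Dade's invariant conjecture for the prime `p` holds for all finite groups `E`
and all normal subgroups `G` if and only if for all `n` in `N` and all `E = G ⋊ A_n` with
`O_p(G) = 1`, all blocks of `G` with nontrivial defect groups and all `d` the alternating sum of the
numbers of the real-valued characters fixed by `E` is even. -/
theorem result (p : ℕ) [Fact p.Prime] (F : Type) [Field F] [IsAlgClosed F] [CharP F p]
    (red : integralClosure ℤ ℂ →+* F) (N : Set ℕ) (hN : N.Infinite) :
    (∀ (E : Type) [Group E] [Finite E] (G : Subgroup E) [G.Normal], DadeInv p red G) ↔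
      ∀ n ∈ N, EvenSums p red n := by
  constructor
  · intro h n _ E _ _ G K _ h1 h2 h3
    obtain ⟨e⟩ := Run7.h759.DI.compl_iso h1 h2
    obtain ⟨i⟩ := h3
    exact Run7.h759.DI.real_of_ok (Run7.h759.DI.ok_of_dade red fun E _ _ G _ _ => h E G) E G
      ⟨e.trans i⟩
  · intro h E _ _ G _
    refine Run7.h759.DI.dade_of_ok red (U := E ⧸ G) (fun V => ?_) E G ⟨MulEquiv.refl _⟩
    exact Run7.h759.DI.ok_realS red hN (fun n hn E _ _ G K _ => h n hn E G K) V

end Pool.Agent.Results.MP_baa4d7_al.RealParity
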